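import Pool.Agent.Y998.LQ.Defs

/-!
# Project LQ (helper998): trace of one level
-/

set_option autoImplicit false

namespace Pool.Agent.Y545.LQ

open Finset Equiv Filter Topology Pool.Agent.Y998.ST Pool.Agent.Y998.CN Pool.Agent.Y998.LP
  Pool.Agent.Y998.LQ

/-- the trace is nonnegative -/
theorem Zf_nonneg {W : Type} [Fintype W] [DecidableEq W] (q : ℕ) (K : W → W → ℝ) (u : ℝ) :
    0 ≤ Zf q K u := by
  have h1 : Zf q K u = ∑ c, E (-(ham q K)) u c c := rfl
  rw [h1]
  refine Finset.sum_nonneg fun c _ => ?_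
  have h2 : u = u / 2 + u / 2 := by ring
  have hsymm : ∀ c c' : W → Fin q, E (-(ham q K)) (u / 2) c c' =
      E (-(ham q K)) (u / 2) c' c := by
    intro c c'
    have h3 : (-(ham q K)).transpose = -(ham q K) := by
      ext a b
      rw [Matrix.transpose_apply, Matrix.neg_apply, Matrix.neg_apply, ham_symm]
    have h4 : (E (-(ham q K)) (u / 2)).transpose = E (-(ham q K)) (u / 2) := by
      unfold E
      rw [← Matrix.exp_transpose, Matrix.transpose_smul, h3]
    calc E (-(ham q K)) (u / 2) c c' = (E (-(ham q K)) (u / 2)).transpose c c' := by rw [h4]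
      _ = _ := rfl
  rw [h2, E_add, Matrix.mul_apply]
  refine Finset.sum_nonneg fun c' _ => ?_
  rw [hsymm c' c]
  exact mul_self_nonneg _

theorem t_LEV (hZC : S_ZC) (hPR : S_PR) : S_LEV := by
  intro d q L V _ _ φ l hl hlL κ t hκ ht
  have hl0 : (0 : ℝ) < l := by exact_mod_cast hl
  have hlL' : (l : ℝ) ≤ L := by exact_mod_cast hlL
  rw [hPR V (Fin d → Fin (L / l + 1)) (blk φ l) (lev φ l κ) q t
    (fun x y h => by unfold lev; rw [if_neg h])]
  have hnc : ∀ i : Fin d → Fin (L / l + 1), ((univ.filter (fun v => blk φ l v = i)).card : ℝ) =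
      (Fintype.card {v : V // blk φ l v = i} : ℝ) := by
    intro i
    rw [Fintype.card_subtype]
  have hZi : ∀ i : Fin d → Fin (L / l + 1),
      Zf q (fun x y : {v : V // blk φ l v = i} => lev φ l κ x y) t =
      Zf q (fun _ _ : {v : V // blk φ l v = i} => (1 : ℝ))
        (κ * t / Fintype.card {v : V // blk φ l v = i}) := by
    intro i
    have h1 : (fun x y : {v : V // blk φ l v = i} => lev φ l κ x y) =
        fun _ _ : {v : V // blk φ l v = i} => κ / Fintype.card {v : V // blk φ l v = i} := by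
      funext x y
      unfold lev
      rw [if_pos (by rw [x.2, y.2]), x.2, hnc]
    rw [h1, Zf_const]
    congr 1
    ring
  have hn : ∀ i : Fin d → Fin (L / l + 1),
      (Fintype.card {v : V // blk φ l v = i} : ℝ) ≤ (l : ℝ) ^ d := by
    intro i
    have h1 := box_card (d := d) (L := L) (l := l) i
    rw [box_eq φ hl i, Finset.card_image_of_injective _ (co_inj φ)] at h1
    rw [← hnc]
    exact_mod_cast h1
  have hsum : ∑ i : Fin d → Fin (L / l + 1), (Fintype.card {v : V // blk φ l v = i} : ℝ) =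
      (L : ℝ) ^ d := by
    have h1 : Fintype.card V = ∑ i, Fintype.card {v : V // blk φ l v = i} := by
      rw [← Fintype.card_sigma]
      exact Fintype.card_congr (Equiv.sigmaFiberEquiv (blk φ l)).symm
    have h2 : Fintype.card V = L ^ d := by
      rw [Fintype.card_congr φ, Fintype.card_fun, Fintype.card_fin, Fintype.card_fin]
    rw [h2] at h1
    exact_mod_cast h1.symm
  obtain ⟨x, hx⟩ : ∃ x : ℝ, x = Real.exp (-(κ * t / 2)) := ⟨_, rfl⟩
  have hx0 : 0 < x := by rw [hx]; exact Real.exp_pos _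
  have hfac : ∀ i : Fin d → Fin (L / l + 1),
      Zf q (fun x y : {v : V // blk φ l v = i} => lev φ l κ x y) t ≤
        Real.exp (q * Real.log ((l : ℝ) ^ d + 1) +
          q * x * (Fintype.card {v : V // blk φ l v = i} : ℝ)) := by
    intro i
    rw [hZi, Real.exp_add]
    refine (hZC {v : V // blk φ l v = i} q (κ * t) (by positivity)).trans ?_
    rw [← hx]
    refine mul_le_mul ?_ ?_ (by positivity) (by positivity)
    · rw [Real.exp_nat_mul, Real.exp_log (by positivity)]
      exact pow_le_pow_left₀ (by positivity) (by linarith [hn i]) q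
    · rw [mul_comm ((q : ℝ) * x), Real.exp_nat_mul]
      exact pow_le_pow_left₀ (by positivity) (by linarith [Real.add_one_le_exp ((q : ℝ) * x)]) _
  refine (Finset.prod_le_prod (fun i _ => Zf_nonneg _ _ _) fun i _ => hfac i).trans ?_
  rw [← Real.exp_sum, ← hx]
  refine Real.exp_le_exp.2 ?_
  rw [Finset.sum_add_distrib, Finset.sum_const, Finset.card_univ, ← Finset.mul_sum, hsum,
    nsmul_eq_mul, Fintype.card_fun, Fintype.card_fin, Fintype.card_fin]
  have hlog : 0 ≤ Real.log ((l : ℝ) ^ d + 1) :=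
    Real.log_nonneg (by have : (0 : ℝ) ≤ (l : ℝ) ^ d := by positivity
                        linarith)
  have h1 : (((L / l + 1) ^ d : ℕ) : ℝ) ≤ (L : ℝ) ^ d * (2 / (l : ℝ)) ^ d := by
    rw [← mul_pow]
    push_cast
    refine pow_le_pow_left₀ (by positivity) ?_ d
    have h2 : ((L / l : ℕ) : ℝ) ≤ (L : ℝ) / l := Nat.cast_div_le
    have h3 : 1 ≤ (L : ℝ) / l := by rw [le_div_iff₀ hl0]; linarith
    have h4 : (L : ℝ) * (2 / l) = L / l + L / l := by ring
    rw [h4]
    linarith
  have h5 : (((L / l + 1) ^ d : ℕ) : ℝ) * (q * Real.log ((l : ℝ) ^ d + 1)) ≤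
      (L : ℝ) ^ d * (2 / (l : ℝ)) ^ d * (q * Real.log ((l : ℝ) ^ d + 1)) :=
    mul_le_mul_of_nonneg_right h1 (by positivity)
  calc (((L / l + 1) ^ d : ℕ) : ℝ) * (q * Real.log ((l : ℝ) ^ d + 1)) + q * x * (L : ℝ) ^ d
      ≤ (L : ℝ) ^ d * (2 / (l : ℝ)) ^ d * (q * Real.log ((l : ℝ) ^ d + 1)) +
        q * x * (L : ℝ) ^ d := by linarith
    _ = _ := by ring

end Pool.Agent.Y545.LQ
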